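import Mathlib

set_option autoImplicit false

namespace Pool.Agent.Results.MP_1004d8_al.Counterexample

/-- The affine map `x ↦ g α(x)` as a permutation of `G`. -/
def affine {G : Type*} [Group G] (g : G) (α : MulAut G) : Equiv.Perm G :=
  Equiv.mulLeft g * α.toEquiv

/-- The group `AGL(1, F)`. -/
@[ext] structure Aff (F : Type) [Field F] where
  t : F
  u : Fˣ

variable {F : Type} [Field F]

instance : Group (Aff F) where
  mul x y := ⟨x.t + x.u * y.t, x.u * y.u⟩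
  one := ⟨0, 1⟩
  inv x := ⟨-(x.u⁻¹ * x.t), x.u⁻¹⟩
  mul_assoc x y z := Aff.ext (by
    change x.t + x.u * y.t + (x.u * y.u : Fˣ) * z.t = x.t + x.u * (y.t + y.u * z.t)
    push_cast; ring) (mul_assoc _ _ _)
  one_mul x := Aff.ext (by change 0 + (1 : Fˣ) * x.t = x.t; simp) (one_mul _)
  mul_one x := Aff.ext (by change x.t + x.u * 0 = x.t; simp) (mul_one _)
  inv_mul_cancel x := Aff.ext (by change -(x.u⁻¹ * x.t) + (x.u⁻¹ : Fˣ) * x.t = 0; simp)
    (inv_mul_cancel _)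

lemma mul_def (x y : Aff F) : x * y = ⟨x.t + x.u * y.t, x.u * y.u⟩ := rfl

lemma pow_a (u : Fˣ) (n : ℕ) : (⟨0, u⟩ : Aff F) ^ n = ⟨0, u ^ n⟩ := by
  induction n with
  | zero => rw [pow_zero, pow_zero]; rfl
  | succ n ih => simp [pow_succ, ih, mul_def]

lemma pow_b (n : ℕ) : (⟨1, 1⟩ : Aff F) ^ n = ⟨n, 1⟩ := by
  induction n with
  | zero => simp; rfl
  | succ n ih => simp [pow_succ, ih, mul_def]

def eqv : Aff F ≃ F × Fˣ := ⟨fun x => (x.t, x.u), fun x => ⟨x.1, x.2⟩, fun _ => rfl, fun _ => rfl⟩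

lemma affine_pow {G : Type*} [Group G] (a b x : G) (n : ℕ) :
    (affine (a * b) (MulAut.conj b⁻¹) ^ n) x = a ^ n * x * b ^ n := by
  induction n with
  | zero => simp
  | succ n ih =>
    rw [pow_succ', Equiv.Perm.mul_apply, ih, pow_succ' a, pow_succ b]
    simp [affine, mul_assoc]

/-- There are finite groups of arbitrarily small commuting probability with an affine map of
order `|G|`. -/
theorem result (ε : ℝ) (hε : 0 < ε) : ∃ (G : Type) (_ : Group G) (_ : Finite G) (g : G)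
    (α : MulAut G), orderOf (affine g α) = Nat.card G ∧ (commProb G : ℝ) < ε := by
  obtain ⟨N, hN⟩ := exists_nat_one_div_lt hε
  obtain ⟨p, hp, h⟩ := Nat.exists_infinite_primes (N + 2)
  have := Fact.mk h
  obtain ⟨q, rfl⟩ : ∃ q, p = q + 1 := ⟨p - 1, by omega⟩
  have : Finite (Aff (ZMod (q + 1))) := .of_equiv _ eqv.symm
  have h1 : Nat.card (ZMod (q + 1))ˣ = q := by rw [Nat.card_units, Nat.card_zmod]; rfl
  have h2 : Nat.card (Aff (ZMod (q + 1))) = (q + 1) * q := by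
    rw [Nat.card_congr eqv, Nat.card_prod, h1, Nat.card_zmod]
  obtain ⟨u, hu⟩ := IsCyclic.exists_ofOrder_eq_natCard (α := (ZMod (q + 1))ˣ)
  refine ⟨Aff (ZMod (q + 1)), inferInstance, this, ⟨0, u⟩ * ⟨1, 1⟩, MulAut.conj (⟨1, 1⟩ : Aff _)⁻¹,
    Nat.dvd_antisymm (orderOf_dvd_of_pow_eq_one (Equiv.ext fun x => ?_)) ?_, ?_⟩
  · rw [affine_pow]; simp [pow_card_eq_one']
  · have h3 := Equiv.congr_fun (pow_orderOf_eq_one
      (affine ((⟨0, u⟩ : Aff _) * ⟨1, 1⟩) (MulAut.conj (⟨1, 1⟩ : Aff _)⁻¹))) 1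
    rw [affine_pow, mul_one, pow_a, pow_b] at h3
    rw [h2]
    refine Nat.Coprime.mul_dvd_of_dvd_of_dvd (by simp) ((ZMod.natCast_eq_zero_iff _ _).mp
      ((Units.mul_right_eq_zero _).mp ((zero_add _).symm.trans (congrArg Aff.t h3)))) ?_
    exact (hu.trans h1).symm.dvd.trans
      (orderOf_dvd_of_pow_eq_one ((mul_one _).symm.trans (congrArg Aff.u h3)))
  let f : Option (ZMod (q + 1))ˣ → ConjClasses (Aff (ZMod (q + 1))) :=
    fun o => o.elim (.mk ⟨1, 1⟩) fun u => .mk ⟨0, u⟩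
  have h3 : Function.Surjective f := fun c => by
    obtain ⟨⟨t, v⟩, rfl⟩ := ConjClasses.mk_surjective c
    by_cases hv : v = 1
    · by_cases ht : t = 0
      · exact ⟨some 1, by simp [f, hv, ht]⟩
      exact ⟨none, ConjClasses.mk_eq_mk_iff_isConj.mpr (isConj_iff.mpr ⟨⟨0, .mk0 t ht⟩,
        mul_inv_eq_of_eq_mul (by simp [mul_def, hv])⟩)⟩
    have : (1 : ZMod (q + 1)) - v ≠ 0 := fun e => hv (Units.ext (sub_eq_zero.mp e).symm)
    exact ⟨some v, ConjClasses.mk_eq_mk_iff_isConj.mpr (isConj_iff.mpr ⟨⟨t / (1 - v), 1⟩,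
      mul_inv_eq_of_eq_mul (by simp [mul_def]; field_simp; ring)⟩)⟩
  have h4 := Nat.card_le_card_of_surjective f h3
  rw [Finite.card_option, h1] at h4
  have h5 : (N + 1 : ℝ) ≤ q := by exact_mod_cast (by omega : N + 1 ≤ q)
  refine lt_of_le_of_lt ?_ hN
  rw [commProb_def', h2]
  push_cast
  rw [div_le_div_iff₀ (by positivity [show (0 : ℝ) < q by linarith [N.cast_nonneg (α := ℝ)]])
    (by positivity), one_mul]
  gcongr
  exact_mod_cast h4

end Pool.Agent.Results.MP_1004d8_al.Counterexample
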